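import Mathlib
import Pool.Agent.H287Z.QG.Defs
import Pool.Agent.H287Z.QG.Amen

set_option autoImplicit false

open scoped TensorProduct ComplexOrder

namespace Pool.Agent.Results.MP_d87fde_al.ATwistCounterexample

open Pool.Agent.H287Z.QG

variable {A : Type} [CStarAlgebra A]
variable {P : Type} [Ring P] [StarRing P] [Algebra ℂ P] [StarModule ℂ P]

/-- The slice map `τ ⊗ id`. -/
noncomputable def sliceL (τ : P →ₗ[ℂ] ℂ) (t : P ⊗[ℂ] P) : P :=
  TensorProduct.lid ℂ P (TensorProduct.map τ LinearMap.id t)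

/-- The slice map `id ⊗ τ`. -/
noncomputable def sliceR (τ : P →ₗ[ℂ] ℂ) (t : P ⊗[ℂ] P) : P :=
  TensorProduct.rid ℂ P (TensorProduct.map LinearMap.id τ t)

/-- `(τ ⊗ id) Δ a = τ(a) 1 = (id ⊗ τ) Δ a` for all `a`. -/
def IsInvariant (Δ : P →⋆ₐ[ℂ] P ⊗[ℂ] P) (τ : P →ₗ[ℂ] ℂ) : Prop :=
  ∀ a : P, sliceL τ (Δ a) = τ a • (1 : P) ∧ sliceR τ (Δ a) = τ a • (1 : P)

/-- `h` is a state on `A`. -/
def IsState (h : A →L[ℂ] ℂ) : Prop := h 1 = 1 ∧ ∀ a : A, 0 ≤ h (star a * a)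

/-- `h` is the Haar state: a state on `A` whose restriction `τ` to `Pol(G)` is invariant on both
sides. -/
def IsHaar (j : P →⋆ₐ[ℂ] A) (Δ : P →⋆ₐ[ℂ] P ⊗[ℂ] P) (h : A →L[ℂ] ℂ) : Prop :=
  IsState h ∧ ∃ τ : P →ₗ[ℂ] ℂ, (∀ a, τ a = h (j a)) ∧ IsInvariant Δ τ

/-- For `A = C_max(G)` with Haar state `h`: the canonical map from `C_max(G)` onto `C_min(G)`,
the image of the GNS representation of `h`, is injective. An element `a` lies in the kernel of the
GNS representation exactly when `h((ab)*(ab)) = 0` for all `b`. -/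
def Coamenable (h : A →L[ℂ] ℂ) : Prop :=
  ∀ a : A, (∀ b : A, h (star (a * b) * (a * b)) = 0) → a = 0

/-- A discrete group is amenable if it carries a left-invariant finitely additive probability
measure defined on all subsets. -/
def Amenable (G : Type) [Group G] : Prop :=
  ∃ m : Set G → ℝ, (∀ S, 0 ≤ m S) ∧ m Set.univ = 1 ∧
    (∀ S T, Disjoint S T → m (S ∪ T) = m S + m T) ∧
    ∀ (g : G) (S : Set G), m ((fun x => g * x) '' S) = m S

/-- Every `Γ_Q` is finite and amenable. -/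
def ToriFiniteAmenable {N : ℕ} (u : Matrix (Fin N) (Fin N) A) : Prop :=
  ∀ Q : Matrix.unitaryGroup (Fin N) ℂ, Finite (Gamma u Q) ∧ Amenable (Gamma u Q)

/-- There is a closed subgroup `G ⊂ U_4^+` that is not coamenable while every `Γ_Q` is finite,
hence amenable. -/
theorem result :
    ∃ (A : Type) (_ : CStarAlgebra A) (u : Matrix (Fin 4) (Fin 4) A)
      (P : Type) (_ : Ring P) (_ : StarRing P) (_ : Algebra ℂ P) (_ : StarModule ℂ P)
      (w : Matrix (Fin 4) (Fin 4) P) (j : P →⋆ₐ[ℂ] A) (Δ : P →⋆ₐ[ℂ] P ⊗[ℂ] P) (h : A →L[ℂ] ℂ),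
      IsCMQG u ∧ IsPol u w j ∧ IsFull j ∧ IsComul Δ w ∧ IsHaar j Δ h ∧
      ¬ Coamenable h ∧ ToriFiniteAmenable u := by
  obtain ⟨A, _, U, Δ, h, h1, h2, h3, h4, h5, h6⟩ := amen_example
  exact ⟨A, inferInstance, U, Pol U, inferInstance, inferInstance, inferInstance, inferInstance,
    ent U, (Pol U).subtype, Δ, h, h1, isPol_ent U, h2, h3,
    ⟨⟨h4.1, h4.2.1⟩, h.toLinearMap ∘ₗ (Pol U).subtype.toAlgHom.toLinearMap, fun a => rfl,
      h4.2.2⟩, h5,
    fun Q => ⟨h6 Q, @exists_mean_of_finite _ _ (h6 Q)⟩⟩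

end Pool.Agent.Results.MP_d87fde_al.ATwistCounterexample
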